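import Pool.Agent.W546.ST.Defs

/-! ST-XB (project of helper546, MP_e09f5c_gt). -/

set_option autoImplicit false

namespace Pool.Agent.W925.ST

open Pool.Agent.W546.ST MeasureTheory

section
variable {l : ℝ}

theorem hh_pos (h0 : 0 < l) (h1 : l ≤ 1 / 2) (a : ℝ) : 0 < hh l a := by
  have : 0 ≤ (1 - 2 * l) * Real.sin a ^ 2 := mul_nonneg (by linarith) (sq_nonneg _)
  unfold hh; linarith

theorem hh_cont : Continuous (hh l) := by unfold hh; fun_prop

theorem hq_pos (h0 : 0 < l) (h1 : l ≤ 1 / 2) (n k : ℕ) (a : ℝ) : 0 < hq n k l a := by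
  have := hh_pos h0 h1 a
  unfold hq; positivity

theorem hq_cont (h0 : 0 < l) (h1 : l ≤ 1 / 2) (n k : ℕ) : Continuous (hq n k l) := by
  unfold hq
  refine Continuous.div ?_ ?_ ?_
  · exact (hh_cont.pow n).sqrt
  · exact hh_cont.pow k
  · intro a
    exact (pow_pos (hh_pos h0 h1 a) k).ne'

theorem hq_succ (h0 : 0 < l) (h1 : l ≤ 1 / 2) (n k : ℕ) (a : ℝ) :
    hh l a * hq n (k + 1) l a = hq n k l a := by
  have := (hh_pos h0 h1 a).ne'
  unfold hq
  rw [pow_succ]
  field_simp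

theorem hq_up (h0 : 0 < l) (h1 : l ≤ 1 / 2) (n k : ℕ) (a : ℝ) :
    hq (n + 2) (k + 1) l a = hq n k l a := by
  have h := hh_pos h0 h1 a
  unfold hq
  have h2 : hh l a ^ (n + 2) = hh l a ^ n * hh l a ^ 2 := by ring
  rw [h2, Real.sqrt_mul (by positivity), Real.sqrt_sq h.le, pow_succ]
  field_simp

theorem Eq_up (h0 : 0 < l) (h1 : l ≤ 1 / 2) (n k : ℕ) : Eq (n + 2) (k + 1) l = Eq n k l := by
  unfold Pool.Agent.W546.ST.Eq
  congr 1
  funext a
  exact hq_up h0 h1 n k a

theorem hq_low (h0 : 0 < l) (h1 : l ≤ 1 / 2) {n k : ℕ} (hk : 2 * k ≤ n) (a : ℝ) :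
    hq n k l a = Real.sqrt (hh l a ^ (n - 2 * k)) := by
  have h := hh_pos h0 h1 a
  unfold hq
  have h2 : hh l a ^ n = hh l a ^ (n - 2 * k) * (hh l a ^ k) ^ 2 := by
    rw [← pow_mul, ← pow_add]
    congr 1; omega
  rw [h2, Real.sqrt_mul (by positivity), Real.sqrt_sq (by positivity)]
  field_simp

theorem mn_add {f g : ℝ → ℝ} (hf : Continuous f) (hg : Continuous g) :
    mn (fun a => f a + g a) = mn f + mn g := by
  unfold mn
  rw [intervalIntegral.integral_add (hf.intervalIntegrable _ _) (hg.intervalIntegrable _ _)]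
  ring

theorem mn_sub {f g : ℝ → ℝ} (hf : Continuous f) (hg : Continuous g) :
    mn (fun a => f a - g a) = mn f - mn g := by
  unfold mn
  rw [intervalIntegral.integral_sub (hf.intervalIntegrable _ _) (hg.intervalIntegrable _ _)]
  ring

theorem mn_mul (c : ℝ) (f : ℝ → ℝ) : mn (fun a => c * f a) = c * mn f := by
  unfold mn
  rw [intervalIntegral.integral_const_mul]
  ring

theorem mn_mono {f g : ℝ → ℝ} (hf : Continuous f) (hg : Continuous g) (h : ∀ a, f a ≤ g a) :
    mn f ≤ mn g := by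
  unfold mn
  apply mul_le_mul_of_nonneg_left _ (by positivity)
  exact intervalIntegral.integral_mono Real.pi_pos.le (hf.intervalIntegrable _ _)
    (hg.intervalIntegrable _ _) h

theorem mn_nonneg {f : ℝ → ℝ} (h : ∀ a, 0 ≤ f a) : 0 ≤ mn f := by
  unfold mn
  apply mul_nonneg (by positivity)
  exact intervalIntegral.integral_nonneg Real.pi_pos.le (fun a _ => h a)

theorem Eq_nonneg (h0 : 0 < l) (h1 : l ≤ 1 / 2) (n k : ℕ) : 0 ≤ Eq n k l :=
  mn_nonneg fun a => (hq_pos h0 h1 n k a).le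

/-- exchange of `sin²` and `cos²` -/
theorem mn_refl {G : ℝ → ℝ} (hG : Continuous G) :
    mn (fun a => G (Real.sin a ^ 2)) = mn (fun a => G (1 - Real.sin a ^ 2)) := by
  unfold mn
  congr 1
  have h1 : Function.Periodic (fun a => G (Real.sin a ^ 2)) Real.pi := by
    intro a
    simp only [Real.sin_add_pi, neg_sq]
  have h2 : ∀ a : ℝ, G (1 - Real.sin a ^ 2) = (fun b => G (Real.sin b ^ 2)) (Real.pi / 2 - a) := by
    intro a
    simp only [Real.sin_pi_div_two_sub]
    rw [Real.cos_sq']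
  have h3 : (∫ a in (0 : ℝ)..Real.pi, G (1 - Real.sin a ^ 2)) =
      ∫ a in (0 : ℝ)..Real.pi, (fun b => G (Real.sin b ^ 2)) (Real.pi / 2 - a) :=
    intervalIntegral.integral_congr fun a _ => h2 a
  rw [h3, intervalIntegral.integral_comp_sub_left (fun b => G (Real.sin b ^ 2)) (Real.pi / 2)]
  have h4 := h1.intervalIntegral_add_eq (Real.pi / 2 - Real.pi) 0
  rw [zero_add, sub_add_cancel] at h4
  rw [sub_zero, h4]

theorem cheb (h0 : 0 < l) (h1 : l ≤ 1 / 2) {n k : ℕ} (hk : 2 * (k + 1) ≤ n) :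
    Eq n (k + 1) l ≤ 2 * Eq n k l := by
  let φ : ℝ → ℝ := fun x => Real.sqrt (x ^ (n - 2 * (k + 1)))
  let G : ℝ → ℝ := fun x => ((l + (1 - 2 * l) * x) - 1 / 2) * φ (l + (1 - 2 * l) * x)
  have hφc : Continuous φ := by
    simp only [φ]; fun_prop
  have hGc : Continuous G := by
    simp only [G]
    refine Continuous.mul (by fun_prop) (hφc.comp (by fun_prop))
  have e1 : mn (fun a => G (Real.sin a ^ 2)) = Eq n k l - 1 / 2 * Eq n (k + 1) l := by
    unfold Pool.Agent.W546.ST.Eq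
    rw [← mn_mul, ← mn_sub (hq_cont h0 h1 n k) ((hq_cont h0 h1 n (k + 1)).const_mul _)]
    congr 1
    funext a
    rw [← hq_succ h0 h1 n k a, hq_low h0 h1 hk]
    simp only [G, φ, hh]
    ring
  have e2 : 0 ≤ mn (fun a => G (Real.sin a ^ 2)) := by
    have h3 := mn_refl hGc
    have hc1 : Continuous (fun a => G (Real.sin a ^ 2)) := hGc.comp (by fun_prop)
    have hc2 : Continuous (fun a => G (1 - Real.sin a ^ 2)) := hGc.comp (by fun_prop)
    have h4 : mn (fun a => G (Real.sin a ^ 2)) + mn (fun a => G (1 - Real.sin a ^ 2)) =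
        mn (fun a => G (Real.sin a ^ 2) + G (1 - Real.sin a ^ 2)) := (mn_add hc1 hc2).symm
    have h5 : 0 ≤ mn (fun a => G (Real.sin a ^ 2) + G (1 - Real.sin a ^ 2)) := by
      apply mn_nonneg
      intro a
      have hx := hh_pos h0 h1 a
      have hx' : 0 < 1 - hh l a := by
        have h6 := Real.sin_sq_le_one a
        unfold hh
        nlinarith [mul_le_mul_of_nonneg_left h6 (by linarith : 0 ≤ 1 - 2 * l)]
      have h7 : G (Real.sin a ^ 2) + G (1 - Real.sin a ^ 2) =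
          (hh l a - 1 / 2) * (φ (hh l a) - φ (1 - hh l a)) := by
        have e : l + (1 - 2 * l) * (1 - Real.sin a ^ 2) = 1 - hh l a := by unfold hh; ring
        simp only [G]
        rw [e]
        have e' : l + (1 - 2 * l) * Real.sin a ^ 2 = hh l a := rfl
        rw [e']; ring
      rw [h7]
      have hmono : ∀ x y : ℝ, 0 < x → x ≤ y → φ x ≤ φ y := by
        intro x y hx hxy
        simp only [φ]
        exact Real.sqrt_le_sqrt (pow_le_pow_left₀ hx.le hxy _)
      rcases le_total (1 / 2) (hh l a) with h | h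
      · apply mul_nonneg (by linarith)
        have := hmono (1 - hh l a) (hh l a) hx' (by linarith)
        linarith
      · apply mul_nonneg_of_nonpos_of_nonpos (by linarith)
        have := hmono (hh l a) (1 - hh l a) hx (by linarith)
        linarith
    linarith
  linarith

end

theorem XB (hrec : St_REC) : St_XB := by
  intro n hn l h0 h1
  have hn' : (5 : ℝ) ≤ n := by exact_mod_cast hn
  obtain ⟨E0, hE0⟩ : ∃ E0, E0 = Eq n 0 l := ⟨_, rfl⟩
  obtain ⟨E1, hE1⟩ : ∃ E1, E1 = Eq n 1 l := ⟨_, rfl⟩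
  obtain ⟨E2, hE2⟩ : ∃ E2, E2 = Eq n 2 l := ⟨_, rfl⟩
  obtain ⟨Em, hEm⟩ : ∃ Em, Em = Eq (n + 2) 0 l := ⟨_, rfl⟩
  have c0 := hq_cont h0 h1 n 0
  have c1 := hq_cont h0 h1 n 1
  have c2 := hq_cont h0 h1 n 2
  have cm := hq_cont h0 h1 (n + 2) 0
  have p0 : 0 ≤ E0 := by rw [hE0]; exact Eq_nonneg h0 h1 _ _
  have p1 : 0 ≤ E1 := by rw [hE1]; exact Eq_nonneg h0 h1 _ _
  have p2 : 0 ≤ E2 := by rw [hE2]; exact Eq_nonneg h0 h1 _ _
  have u1 : ∀ a, hh l a * hq n 1 l a = hq n 0 l a := fun a => hq_succ h0 h1 n 0 a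
  have u2 : ∀ a, hh l a * hq n 2 l a = hq n 1 l a := fun a => hq_succ h0 h1 n 1 a
  have u0 : ∀ a, hh l a * hq n 0 l a = hq (n + 2) 0 l a := fun a => by
    rw [← hq_succ h0 h1 (n + 2) 0 a, hq_up h0 h1 n 0 a]
  -- recurrences
  have R0 : ((n : ℝ) - 1) * E1 - n * E0 = (n - 2) * (l * (1 - l)) * E2 := by
    have := hrec n l h0 h1 0
    rw [hE0, hE1, hE2]
    simpa using this
  have Rm : ((n : ℝ) + 1) * E0 - (n + 2) * Em = n * (l * (1 - l)) * E1 := by
    have := hrec (n + 2) l h0 h1 0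
    rw [Eq_up h0 h1 n 0, Eq_up h0 h1 n 1] at this
    rw [hE0, hE1, hEm]
    push_cast at this
    linear_combination this
  have hμ0 : 0 < l * (1 - l) := mul_pos h0 (by linarith)
  have hμ4 : l * (1 - l) ≤ 1 / 4 := by nlinarith [sq_nonneg (l - 1 / 2)]
  have hn2 : (0 : ℝ) < n - 2 := by linarith
  have hn1 : (0 : ℝ) < n - 1 := by linarith
  have C1 : E1 ≤ 2 * E0 := by rw [hE0, hE1]; exact cheb h0 h1 (k := 0) (by omega)
  have C2 : E2 ≤ 2 * E1 := by rw [hE1, hE2]; exact cheb h0 h1 (k := 1) (by omega)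
  -- the expansion of X0
  have F0 : (1 - 2 * l) * X0 n l = (1 - 2 * l) * (2 * n + 3) * E0 + n * (2 * n + 3) * (E0 - l * E1)
      - 3 * (n + 2) * (Em - l * E0) + (n + 3) * (l * (1 - l)) * (E1 - l * E2) := by
    have e : (1 - 2 * l) * X0 n l = mn (fun a =>
        ((1 - 2 * l) * (2 * n + 3) + n * (2 * n + 3) + 3 * (n + 2) * l) * hq n 0 l a +
        ((n + 3) * (l * (1 - l)) - n * (2 * n + 3) * l) * hq n 1 l a +
        (-3 * (n + 2)) * hq (n + 2) 0 l a + (-(n + 3) * (l * (1 - l)) * l) * hq n 2 l a) := by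
      unfold X0
      rw [← mn_mul]
      congr 1
      funext a
      have es : (1 - 2 * l) * Real.sin a ^ 2 = hh l a - l := by unfold hh; ring
      have : (1 - 2 * l) * ((2 * (n : ℝ) + 3) * hq n 0 l a + Real.sin a ^ 2 * br n l a) =
          (1 - 2 * l) * (2 * (n : ℝ) + 3) * hq n 0 l a + ((1 - 2 * l) * Real.sin a ^ 2) * br n l a := by
        ring
      rw [this, es]
      unfold br
      linear_combination (n * (2 * n + 3)) * u1 a - 3 * (n + 2) * u0 a +
        (n + 3) * (l * (1 - l)) * u2 a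
    rw [e, mn_add (by fun_prop) (by fun_prop), mn_add (by fun_prop) (by fun_prop),
      mn_add (by fun_prop) (by fun_prop), mn_mul, mn_mul, mn_mul, mn_mul]
    have g0 : mn (hq n 0 l) = E0 := hE0.symm
    have g1 : mn (hq n 1 l) = E1 := hE1.symm
    have g2 : mn (hq n 2 l) = E2 := hE2.symm
    have gm : mn (hq (n + 2) 0 l) = Em := hEm.symm
    have g0' : mn (fun a => hq n 0 l a) = E0 := g0
    have g1' : mn (fun a => hq n 1 l a) = E1 := g1
    have g2' : mn (fun a => hq n 2 l a) = E2 := g2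
    have gm' : mn (fun a => hq (n + 2) 0 l a) = Em := gm
    rw [g0', g1', g2', gm']
    ring
  have F1 : (1 - 2 * l) * X1 n l = (n * (2 * n + 3) * E1 - 3 * (n + 2) * E0 +
      (n + 3) * (l * (1 - l)) * E2) - 2 * (n * (2 * n + 3) * E0 - 3 * (n + 2) * Em +
      (n + 3) * (l * (1 - l)) * E1) := by
    have e : (1 - 2 * l) * X1 n l = mn (fun a =>
        (-3 * (n + 2) - 2 * n * (2 * n + 3)) * hq n 0 l a +
        (n * (2 * n + 3) - 2 * (n + 3) * (l * (1 - l))) * hq n 1 l a +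
        (6 * (n + 2)) * hq (n + 2) 0 l a + ((n + 3) * (l * (1 - l))) * hq n 2 l a) := by
      unfold X1
      rw [← mn_mul]
      congr 1
      funext a
      have es : (1 - 2 * l) * (1 - 2 * Real.sin a ^ 2) = 1 - 2 * hh l a := by unfold hh; ring
      rw [← mul_assoc, es]
      unfold br
      linear_combination (-2 * n * (2 * n + 3)) * u1 a + 6 * (n + 2) * u0 a -
        2 * (n + 3) * (l * (1 - l)) * u2 a
    rw [e, mn_add (by fun_prop) (by fun_prop), mn_add (by fun_prop) (by fun_prop),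
      mn_add (by fun_prop) (by fun_prop), mn_mul, mn_mul, mn_mul, mn_mul]
    have g0' : mn (fun a => hq n 0 l a) = E0 := hE0.symm
    have g1' : mn (fun a => hq n 1 l a) = E1 := hE1.symm
    have g2' : mn (fun a => hq n 2 l a) = E2 := hE2.symm
    have gm' : mn (fun a => hq (n + 2) 0 l a) = Em := hEm.symm
    rw [g0', g1', g2', gm']
    ring
  have F2 : X0 n l ≤ (2 * n + 3) * E0 + n * (2 * n + 3) * E1 + (n + 3) * (l * (1 - l)) * E2 := by
    have e : (2 * (n : ℝ) + 3) * E0 + n * (2 * n + 3) * E1 + (n + 3) * (l * (1 - l)) * E2 =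
        mn (fun a => (2 * n + 3) * hq n 0 l a + n * (2 * n + 3) * hq n 1 l a +
          (n + 3) * (l * (1 - l)) * hq n 2 l a) := by
      rw [mn_add (by fun_prop) (by fun_prop), mn_add (by fun_prop) (by fun_prop), mn_mul, mn_mul,
        mn_mul]
      have g0' : mn (fun a => hq n 0 l a) = E0 := hE0.symm
      have g1' : mn (fun a => hq n 1 l a) = E1 := hE1.symm
      have g2' : mn (fun a => hq n 2 l a) = E2 := hE2.symm
      rw [g0', g1', g2']
    rw [e]
    unfold X0
    apply mn_mono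
    · unfold br; fun_prop
    · fun_prop
    · intro a
      have q0 := hq_pos h0 h1 n 0 a
      have q1 := hq_pos h0 h1 n 1 a
      have q2 := hq_pos h0 h1 n 2 a
      have hs0 : 0 ≤ Real.sin a ^ 2 := sq_nonneg _
      have hs1 : Real.sin a ^ 2 ≤ 1 := Real.sin_sq_le_one a
      have hB : 0 ≤ n * (2 * n + 3) * hq n 1 l a + (n + 3) * (l * (1 - l)) * hq n 2 l a := by
        positivity
      have hb : br n l a ≤ n * (2 * n + 3) * hq n 1 l a + (n + 3) * (l * (1 - l)) * hq n 2 l a := by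
        unfold br
        have : 0 ≤ 3 * ((n : ℝ) + 2) * hq n 0 l a := by positivity
        linarith
      have h3 := mul_le_mul_of_nonneg_left hb hs0
      have h4 := mul_le_mul_of_nonneg_right hs1 hB
      linarith
  -- elimination
  have hE2' : (l * (1 - l)) * E2 = ((n - 1) * E1 - n * E0) / (n - 2) := by
    rw [eq_div_iff hn2.ne', R0]; ring
  have hEm' : (n + 2) * Em = (n + 1) * E0 - n * (l * (1 - l)) * E1 := by linear_combination -Rm
  have hlow : n * E0 ≤ (n - 1) * E1 := by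
    have : 0 ≤ (n - 2) * (l * (1 - l)) * E2 := by positivity
    linarith
  refine ⟨?_, ?_, ?_⟩
  · have G0' : (1 - 2 * l) * X0 n l = E0 * (2 * (n + 1) * n + 5 * l * n / (n - 2)) -
        l * E1 * (2 * (n + 1) ^ 2 - 5 * (n + 1) + (4 * n + 3) * l + ((n + 1) ^ 2 - 4) / (n - 2)) := by
      have e3 : (1 - 2 * l) * X0 n l = (1 - 2 * l) * (2 * n + 3) * E0 +
          n * (2 * n + 3) * (E0 - l * E1) - 3 * ((n + 2) * Em) + 3 * (n + 2) * l * E0 +
          (n + 3) * (l * (1 - l)) * E1 - (n + 3) * l * ((l * (1 - l)) * E2) := by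
        rw [F0]; ring
      rw [e3, hEm', hE2']
      field_simp
      ring
    rw [G0']
    have hbr : 0 ≤ 2 * ((n : ℝ) + 1) ^ 2 - 5 * (n + 1) + (4 * n + 3) * l +
        ((n + 1) ^ 2 - 4) / (n - 2) := by
      have t1 : 0 ≤ (((n : ℝ) + 1) ^ 2 - 4) / (n - 2) := by
        apply div_nonneg _ hn2.le; nlinarith
      have t2 : 0 ≤ (4 * (n : ℝ) + 3) * l := by positivity
      have t3 : 0 ≤ 2 * ((n : ℝ) + 1) ^ 2 - 5 * (n + 1) := by nlinarith
      linarith
    have hE1low : n / (n - 1) * E0 ≤ E1 := by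
      rw [div_mul_eq_mul_div, div_le_iff₀ hn1]; linarith
    have h5 := mul_le_mul_of_nonneg_left hE1low h0.le
    have h6 := mul_le_mul_of_nonneg_right h5 hbr
    have h7 : gh n l * Eq n 0 l = E0 * (2 * (n + 1) * n + 5 * l * n / (n - 2)) -
        l * (n / (n - 1) * E0) * (2 * (n + 1) ^ 2 - 5 * (n + 1) + (4 * n + 3) * l +
          ((n + 1) ^ 2 - 4) / (n - 2)) := by
      rw [← hE0]; unfold gh; ring
    rw [h7]
    linarith
  · have G1' : (1 - 2 * l) * X1 n l = E1 * (n * (2 * n + 3) - 2 * (n + 3) * (l * (1 - l)) -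
        6 * n * (l * (1 - l)) + ((n + 1) ^ 2 - 4) / (n - 2)) -
        E0 * (2 * n * (2 * n + 3) + 3 * (n + 2) - 6 * (n + 1) + (n + 3) * n / (n - 2)) := by
      have e3 : (1 - 2 * l) * X1 n l = n * (2 * n + 3) * E1 - 3 * (n + 2) * E0 +
          (n + 3) * ((l * (1 - l)) * E2) - 2 * n * (2 * n + 3) * E0 + 6 * ((n + 2) * Em) -
          2 * (n + 3) * (l * (1 - l)) * E1 := by
        rw [F1]; ring
      rw [e3, hEm', hE2']
      field_simp
      ring
    rw [G1']
    have hden : 0 < (n - 1) - 2 * ((n : ℝ) - 2) * (l * (1 - l)) := by nlinarith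
    have hup : E1 ≤ n / ((n - 1) - 2 * ((n : ℝ) - 2) * (l * (1 - l))) * E0 := by
      rw [div_mul_eq_mul_div, le_div_iff₀ hden]
      have h8 : (n - 2) * (l * (1 - l)) * E2 ≤ (n - 2) * (l * (1 - l)) * (2 * E1) :=
        mul_le_mul_of_nonneg_left C2 (by positivity)
      linarith
    have hK : 0 ≤ (n : ℝ) * (2 * n + 3) + ((n + 1) ^ 2 - 4) / (n - 2) := by
      have t1 : 0 ≤ (((n : ℝ) + 1) ^ 2 - 4) / (n - 2) := by
        apply div_nonneg _ hn2.le; nlinarith
      have t2 : 0 ≤ (n : ℝ) * (2 * n + 3) := by positivity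
      linarith
    have h9 := mul_le_mul_of_nonneg_right hup hK
    have h10 : 0 ≤ E1 * (2 * (n + 3) * (l * (1 - l)) + 6 * n * (l * (1 - l))) := by positivity
    have h11 : -(gx n l * Eq n 0 l) = n / ((n - 1) - 2 * ((n : ℝ) - 2) * (l * (1 - l))) * E0 *
        (n * (2 * n + 3) + ((n + 1) ^ 2 - 4) / (n - 2)) -
        E0 * (2 * n * (2 * n + 3) + 3 * (n + 2) - 6 * (n + 1) + (n + 3) * n / (n - 2)) := by
      rw [← hE0]; unfold gx; ring
    rw [h11]
    linarith
  · rw [← hE0]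
    refine F2.trans ?_
    have h12 : n * (2 * n + 3) * E1 ≤ n * (2 * n + 3) * (2 * E0) :=
      mul_le_mul_of_nonneg_left C1 (by positivity)
    have h13 : (l * (1 - l)) * E2 ≤ 1 / 4 * (4 * E0) := by
      apply mul_le_mul hμ4 (by linarith) p2 (by norm_num)
    have h14 : (n + 3) * ((l * (1 - l)) * E2) ≤ (n + 3) * (1 / 4 * (4 * E0)) :=
      mul_le_mul_of_nonneg_left h13 (by positivity)
    nlinarith

end Pool.Agent.W925.ST
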